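import Pool.Agent.Helper446.CB.Hier
import Pool.Agent.Helper941.Hyp.HTree

/-!
Universal predicates for the levels of the arithmetical hierarchy and for `Σ¹₁`, and a list of
closure properties of a level which is enough for the construction of incomplete isomorphism
problems.
-/

set_option autoImplicit false

namespace Pool.Agent.H649R2

open Encodable Nat.Partrec Pool.Agent.Helper446 Pool.Agent.Helper446.CB Pool.Agent.Helper446.RE

/-- a universal `Σ⁰_{n+1}` predicate -/
def U : ℕ → ℕ → ℕ → Prop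
  | 0, e, x => ∃ s, wst ℕ e s x = true
  | n + 1, e, x => ∃ m, ¬ U n e (Nat.pair x m)

theorem sig_U (n : ℕ) : Sig (n + 1) fun p : ℕ × ℕ => U n p.1 p.2 := by
  induction n with
  | zero =>
    rw [zero_add, sig_one]
    refine exN (p := fun (x : ℕ × ℕ) s => wst ℕ x.1 s x.2 = true) (of_bool ?_)
    exact wst_comp.comp (f := fun p : (ℕ × ℕ) × ℕ => wst ℕ p.1.1 p.1.2 p.2)
      (g := fun x : (ℕ × ℕ) × ℕ => ((x.1.1, x.2), x.1.2)) (by fun_prop)
  | succ n ih =>
    refine ⟨fun x => U n x.1.1 (Nat.pair x.1.2 x.2), ?_, fun a => Iff.rfl⟩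
    exact ih.comp (f := fun x : (ℕ × ℕ) × ℕ => (x.1.1, Nat.pair x.1.2 x.2)) (by fun_prop)

theorem univ_U (n : ℕ) {p : ℕ → Prop} (h : Sig (n + 1) p) : ∃ e, ∀ x, p x ↔ U n e x := by
  induction n generalizing p with
  | zero =>
    rw [zero_add, sig_one] at h
    exact wst_univ h
  | succ n ih =>
    obtain ⟨q, hq, h⟩ := h
    have h1 : Sig (n + 1) fun z : ℕ => q (z.unpair.1, z.unpair.2) :=
      hq.comp (f := fun z : ℕ => (z.unpair.1, z.unpair.2)) (by fun_prop)
    obtain ⟨e, he⟩ := ih h1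
    refine ⟨e, fun x => ?_⟩
    rw [h]
    show (∃ m, ¬ q (x, m)) ↔ ∃ m, ¬ U n e (Nat.pair x m)
    refine exists_congr fun m => ?_
    rw [← he, Nat.unpair_pair]

/-- A level of complexity: a class of predicates on coded types. -/
abbrev Level : Type 1 := ∀ {α : Type} [Primcodable α], (α → Prop) → Prop

/-- Closure properties of the levels from `3` on. -/
structure Good (Γ : Level) : Prop where
  iff : ∀ {α : Type} [Primcodable α] {p q : α → Prop}, Γ p → (∀ a, p a ↔ q a) → Γ q
  comp : ∀ {α β : Type} [Primcodable α] [Primcodable β] {p : β → Prop}, Γ p →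
    ∀ {f : α → β}, Computable f → Γ fun a => p (f a)
  delta : ∀ {α : Type} [Primcodable α] {p : α → Prop}, Sig 3 p → Pi 3 p → Γ p
  fs : ∀ {α : Type} [Primcodable α] {G : α × ℕ → Prop} {C : ℕ → Prop}, Sig 3 G →
    (Pi 3 fun a => ∃ k, G (a, k)) → (∀ a k k', G (a, k) → G (a, k') → k = k') → Γ C →
    Γ fun a => ∃ k, G (a, k) ∧ C k
  univ : ∃ W : ℕ × ℕ → Prop, Γ W ∧ ∀ p : ℕ → Prop, Γ p → ∃ e, ∀ x, p x ↔ W (e, x)

theorem good_sig (n : ℕ) (hn : 3 ≤ n) : Good (fun p => Sig n p) where
  iff h h' := h.of_iff h'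
  comp h _ hf := h.comp hf
  delta h _ := h.mono hn
  fs := by
    intro α _ G C hG _ _ hC
    obtain ⟨m, rfl⟩ : ∃ m, n = m + 1 := ⟨n - 1, by omega⟩
    refine Sig.exN (p := fun a k => G (a, k) ∧ C k) ?_
    exact Sig.and ((hG.mono hn).comp (f := fun x : α × ℕ => (x.1, x.2)) (by fun_prop))
      (Sig.comp (p := C) hC (f := fun x : α × ℕ => x.2) (by fun_prop))
  univ := by
    obtain ⟨m, rfl⟩ : ∃ m, n = m + 1 := ⟨n - 1, by omega⟩
    exact ⟨fun p => U m p.1 p.2, sig_U m, fun p hp => univ_U m hp⟩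

theorem good_pi (n : ℕ) (hn : 3 ≤ n) : Good (fun p => Pi n p) where
  iff h h' := h.of_iff h'
  comp h _ hf := h.comp hf
  delta _ h := h.mono hn
  fs := by
    intro α _ G C hG hd hfun hC
    obtain ⟨m, rfl⟩ : ∃ m, n = m + 1 := ⟨n - 1, by omega⟩
    have h1 : Pi (m + 1) fun a : α => ∀ k, G (a, k) → C k := by
      refine Pi.all (p := fun a k => G (a, k) → C k) ?_
      exact Pi.imp ((hG.mono hn).comp (f := fun x : α × ℕ => (x.1, x.2)) (by fun_prop))
        (Pi.comp (p := C) hC (f := fun x : α × ℕ => x.2) (by fun_prop))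
    refine ((hd.mono hn).and h1).of_iff fun a => ?_
    constructor
    · rintro ⟨⟨k, hk⟩, h⟩
      exact ⟨k, hk, h k hk⟩
    · rintro ⟨k, hk, hc⟩
      exact ⟨⟨k, hk⟩, fun k' hk' => by rwa [hfun a k' k hk' hk]⟩
  univ := by
    obtain ⟨m, rfl⟩ : ∃ m, n = m + 1 := ⟨n - 1, by omega⟩
    refine ⟨fun p => ¬ U m p.1 p.2, (sig_U m).not, fun p hp => ?_⟩
    obtain ⟨e, he⟩ := univ_U m (p := fun x => ¬ p x) hp
    exact ⟨e, fun x => by
      show p x ↔ ¬ U m e x
      rw [← he]; simp⟩

open Pool.Agent.Helper941.Hyp Pool.Agent.Helper941.Zeta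
open Pool.Agent.Helper941.Dim (c_halts)

theorem delta11_of_sig (n : ℕ) : ∀ {α : Type} [Primcodable α] {p : α → Prop}, Sig n p →
    Delta11 p := by
  induction n with
  | zero => intro α _ p h; exact Delta11.of_computable h
  | succ n ih =>
    intro α _ p h
    obtain ⟨q, hq, h⟩ := h
    exact (Delta11.ex (P := fun x : α × ℕ => ¬ q x) (ih hq).not).of_iff h

theorem sigma11_UU1 : Sigma11 fun p : ℕ × ℕ => UU1 p.1 p.2 := by
  refine ⟨fun q => UT q.1.1 q.1.2 q.2, ?_, fun a => Iff.rfl⟩
  unfold UT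
  refine p_ball (P := fun (q : (ℕ × ℕ) × List ℕ) m => ¬ Pool.Agent.Helper941.IsoProb.haltsIn
    (Denumerable.ofNat Code q.1.1) (Nat.pair q.1.2 (encode (tk q.2 m))) q.2.length = true)
    (by fun_prop) (p_not (p_of_bool (c_halts ?_ ?_ ?_)))
  · fun_prop
  · refine c_npair (by fun_prop) (Computable.encode.comp (c_tk (by fun_prop) (by fun_prop)))
  · fun_prop

theorem good_sigma11 : Good (fun p => Sigma11 p) where
  iff h h' := Sigma11.of_iff h fun a => (h' a).symm
  comp h _ hf := h.comp hf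
  delta h _ := (delta11_of_sig 3 h).1
  fs := by
    intro α _ G C hG _ _ hC
    refine Sigma11.ex (P := fun x : α × ℕ => G x ∧ C x.2) ?_
    exact Sigma11.and (delta11_of_sig 3 hG).1 (Sigma11.comp hC Computable.snd)
  univ := ⟨fun p => UU1 p.1 p.2, sigma11_UU1, fun _ hp => universal11 hp⟩

/-! ### a fast growing function -/

open Classical in
/-- the value of the `i`-th partial computable function at `i`, or `0` -/
noncomputable def Mx (i : ℕ) : ℕ :=
  if h : ((Denumerable.ofNat Code i).eval i).Dom then ((Denumerable.ofNat Code i).eval i).get h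
  else 0

/-- the numbers `Mx k, …, Mx 0`, as a list -/
noncomputable def ML : ℕ → List ℕ
  | 0 => [Mx 0]
  | k + 1 => Mx (k + 1) :: ML k

/-- a fast growing function -/
noncomputable def pp (k : ℕ) : ℕ := encode (ML k)

theorem pp_strictMono : StrictMono pp := by
  refine strictMono_nat_of_lt_succ fun k => ?_
  show encode (ML k) < encode (Mx (k + 1) :: ML k)
  rw [encode_list_cons]
  exact Nat.lt_succ_of_le (Nat.right_le_pair _ _)

theorem Mx_lt_pp (k : ℕ) : Mx k < pp k := by
  unfold pp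
  cases k with
  | zero =>
    show Mx 0 < encode [Mx 0]
    rw [encode_list_cons]
    exact Nat.lt_succ_of_le (Nat.left_le_pair _ _)
  | succ k =>
    show Mx (k + 1) < encode (Mx (k + 1) :: ML k)
    rw [encode_list_cons]
    exact Nat.lt_succ_of_le (Nat.left_le_pair _ _)

/-- no computable function dominates `pp` -/
theorem pp_escapes {v : ℕ → ℕ} (hv : Computable v) : ∃ k, v k < pp k := by
  obtain ⟨c, hc⟩ := Code.exists_code.1 (Partrec.nat_iff.1 hv.partrec)
  refine ⟨encode c, lt_of_le_of_lt (le_of_eq ?_) (Mx_lt_pp (encode c))⟩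
  unfold Mx
  have h : (Denumerable.ofNat Code (encode c)).eval (encode c) = Part.some (v (encode c)) := by
    rw [Denumerable.ofNat_encode, hc]
    rfl
  simp only [h]
  simp

theorem ML_length (k : ℕ) : (ML k).length = k + 1 := by
  induction k with
  | zero => rfl
  | succ k ih => show (ML k).length + 1 = _; rw [ih]

theorem ML_getD (k i : ℕ) (h : i < k + 1) : (ML k)[i]? = some (Mx (k - i)) := by
  induction k generalizing i with
  | zero =>
    have : i = 0 := by omega
    subst this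
    rfl
  | succ k ih =>
    cases i with
    | zero => rfl
    | succ i =>
      show (ML k)[i]? = _
      rw [ih i (by omega)]
      congr 2
      omega

theorem pp_iff (k y : ℕ) : pp k = y ↔ (Denumerable.ofNat (List ℕ) y).length = k + 1 ∧
    ∀ i < k + 1, (Denumerable.ofNat (List ℕ) y)[i]?.getD 0 = Mx (k - i) := by
  constructor
  · rintro rfl
    unfold pp
    rw [Denumerable.ofNat_encode]
    refine ⟨ML_length k, fun i hi => ?_⟩
    rw [ML_getD k i hi]
    rfl
  · rintro ⟨h1, h2⟩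
    have : ML k = Denumerable.ofNat (List ℕ) y := by
      apply List.ext_getElem?
      intro i
      by_cases hi : i < k + 1
      · rw [ML_getD k i hi, ← h2 i hi, List.getElem?_eq_getElem (by omega)]
        rfl
      · rw [List.getElem?_eq_none (by rw [ML_length]; omega),
          List.getElem?_eq_none (by omega)]
    unfold pp
    rw [this, Denumerable.encode_ofNat]

theorem c_evaln : Computable fun x : (ℕ × ℕ) × ℕ =>
    Code.evaln x.1.1 (Denumerable.ofNat Code x.1.2) x.2 := by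
  have h1 : Computable fun x : (ℕ × Code) × ℕ => (Code.evaln x.1.1 x.1.2 x.2) :=
    Code.primrec_evaln.to_comp
  exact h1.comp (((Computable.fst.comp Computable.fst).pair
    ((Computable.ofNat Code).comp (Computable.snd.comp Computable.fst))).pair Computable.snd)

theorem c_evaln' {α : Type} [Primcodable α] {s e x : α → ℕ} (hs : Computable s)
    (he : Computable e) (hx : Computable x) :
    Computable fun a => Code.evaln (s a) (Denumerable.ofNat Code (e a)) (x a) :=
  c_evaln.comp ((hs.pair he).pair hx)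

theorem sig_Mx : Sig 2 fun p : ℕ × ℕ => Mx p.1 = p.2 := by
  have h1 : Sig 1 fun p : ℕ × ℕ => ∃ s, Code.evaln s (Denumerable.ofNat Code p.1) p.1 =
      some p.2 := by
    refine Sig.exN (p := fun (p : ℕ × ℕ) s => Code.evaln s (Denumerable.ofNat Code p.1) p.1 =
      some p.2) (Sig.of_cp ?_)
    exact RE.cp_eq (c_evaln' (by fun_prop) (by fun_prop) (by fun_prop)) (by fun_prop)
  have h2 : Sig 1 fun p : ℕ × ℕ => ∃ q : ℕ × ℕ,
      Code.evaln q.1 (Denumerable.ofNat Code p.1) p.1 = some q.2 := by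
    refine Sig.ex (p := fun (p : ℕ × ℕ) (q : ℕ × ℕ) =>
      Code.evaln q.1 (Denumerable.ofNat Code p.1) p.1 = some q.2) (Sig.of_cp ?_)
    exact RE.cp_eq (c_evaln' (by fun_prop) (by fun_prop) (by fun_prop)) (by fun_prop)
  have h3 : Sig 2 fun p : ℕ × ℕ => (∃ s, Code.evaln s (Denumerable.ofNat Code p.1) p.1 =
      some p.2) ∨ (p.2 = 0 ∧ ¬ ∃ q : ℕ × ℕ,
      Code.evaln q.1 (Denumerable.ofNat Code p.1) p.1 = some q.2) := by
    refine Sig.or h1.succ (Sig.and (Sig.of_cp (RE.cp_eq (by fun_prop) (by fun_prop))) ?_)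
    exact h2.not.sig
  refine h3.of_iff fun p => ?_
  unfold Mx
  constructor
  · rintro (⟨s, hs⟩ | ⟨h4, h5⟩)
    · have h6 : p.2 ∈ (Denumerable.ofNat Code p.1).eval p.1 :=
        Code.evaln_complete.2 ⟨s, hs⟩
      rw [dif_pos (Part.dom_iff_mem.2 ⟨_, h6⟩)]
      exact Part.get_eq_of_mem h6 _
    · rw [dif_neg, h4]
      intro hd
      obtain ⟨y, hy⟩ := Part.dom_iff_mem.1 hd
      obtain ⟨s, hs⟩ := Code.evaln_complete.1 hy
      exact h5 ⟨(s, y), hs⟩
  · intro h
    by_cases hd : ((Denumerable.ofNat Code p.1).eval p.1).Dom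
    · left
      rw [dif_pos hd] at h
      obtain ⟨s, hs⟩ := Code.evaln_complete.1 (Part.get_mem hd)
      exact ⟨s, by rw [← h]; exact hs⟩
    · right
      rw [dif_neg hd] at h
      refine ⟨h.symm, ?_⟩
      rintro ⟨q, hq⟩
      exact hd (Part.dom_iff_mem.2 ⟨q.2, Code.evaln_complete.2 ⟨q.1, hq⟩⟩)

theorem sig_pp : Sig 2 fun p : ℕ × ℕ => pp p.1 = p.2 := by
  have hL : Computable fun p : ℕ × ℕ => Denumerable.ofNat (List ℕ) p.2 :=
    (Computable.ofNat (List ℕ)).comp Computable.snd
  have h : Sig 2 fun p : ℕ × ℕ => (Denumerable.ofNat (List ℕ) p.2).length = p.1 + 1 ∧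
      ∀ i < p.1 + 1, Mx (p.1 - i) = (Denumerable.ofNat (List ℕ) p.2)[i]?.getD 0 := by
    refine Sig.and (Sig.of_cp (RE.cp_eq (Computable.list_length.comp hL) (by fun_prop))) ?_
    refine Sig.all_lt (p := fun (p : ℕ × ℕ) i => Mx (p.1 - i) =
      (Denumerable.ofNat (List ℕ) p.2)[i]?.getD 0) ?_ (by fun_prop)
    refine sig_Mx.comp (f := fun x : (ℕ × ℕ) × ℕ => (x.1.1 - x.2,
      (Denumerable.ofNat (List ℕ) x.1.2)[x.2]?.getD 0)) ?_
    refine Computable.pair (by fun_prop) (Computable.option_getD ?_ (Computable.const 0))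
    exact Computable.list_getElem?.comp (hL.comp Computable.fst) Computable.snd
  refine h.of_iff fun p => ?_
  rw [pp_iff]
  simp only [eq_comm]

end Pool.Agent.H649R2
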